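import Pool.Agent.Helper6.Ku.Full
import Pool.Agent.Helper53.Ku.Sets
import Pool.Agent.Helper11.Ku.Coll
import Pool.Agent.Helper49.Ku.Inf
import Pool.Agent.Helper89.Ku.Choice
import Pool.Agent.Helper33.Ku.LOS
import Pool.Agent.Helper67.Ku.ZFC
import Pool.Agent.Helper8.Ku.WNA
import Pool.Agent.Helper53.Ku.FNFE
import Pool.Agent.Helper27.Ku.CHK
import Pool.Agent.Helper6.Ku.KPair
import Pool.Agent.Helper59.Ku.Rzw
import Pool.Agent.Helper85.Ku.RZF
import Pool.Agent.Helper33.Ku.RZ
import Pool.Agent.Helper88.Ku.LOS2

/-!
# Forcing library: hub (README)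

This file collects, without open hypotheses, the reusable results of the forcing library written
for MP_47bc22_lc (definitions by helper97; proofs by helpers 6, 8, 11, 27, 33, 49, 53, 59, 67, 85,
88, 89). Import this file to use them.

## Objects (files `Pool/Agent/Helper97/Ku/*.lean`)

* `BSet L` (`BSet.lean`): Boolean-valued universe over a complete Boolean algebra `L : Type u`
  (the Lean universe `Type u` plays the role of the ground model `V`; `BSet L : Type (u+1)`).
  `x.eq y : L`, `x.mem y : L`, `BSet.Ext φ` (extensional predicates), closure lemmas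
  `Ext.inf/sup/himp/compl/iInf/iSup/mem_left/mem_right/eq_left/eq_right/const` (`Basic.lean`),
  bounded quantifiers `iInf_mem`, `iSup_mem`, extensionality `ext_le`, `eq_iff_ext`.
* `Fml` : first-order formulas of the language of set theory with named variables, `Fml.sat E w`
  truth in a structure `(N, E)`, `Fml.val w : L` Boolean value.
* `IsZFC N E` : `(N, E)` is a model of first-order ZFC (full schemas of separation and replacement).
* `UF L` : ultrafilters; `NM U` : the quotient of `BSet L` by `U`, with membership `NM.E`;
  `NM.mk U x`, `NM.mk_eq`, `NM.mk_E`, `NM.mk_surj` (`Quo.lean`).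
* `WN Ω L` names of elements of a well-ordered ground set `Ω`, `FN Ω L` names of functions
  `Ω → Ω` (`GoalsG.lean`, `SO.lean`); `ck a` check names; `kpr a b` Kuratowski pair.
* `Rz G U` : dictionary between names and the elements/functions of `Ω` inside the quotient.

## Results below

* `zfc`   : `NM U` is a model of ZFC for every ultrafilter `U` of every `L`.
* `los`   : Łoś: `φ` holds in `NM U` at classes of names iff its Boolean value is in `U`.
* `ufex`  : every nonzero element of `L` is in an ultrafilter.
* `full`, `mix` : fullness and mixtures.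
* `con`   : if `φ` is a sentence (or formula with parameters) of value `≠ ⊥` then some `(N, E)` is
  a model of `ZFC` in which `φ` holds: the consistency theorem in usable form.
* `setsP`, `coll`, `found`, `inf`, `choice` : Boolean-valued set existence.
* `chk`, `prn`, `wna`, `fnf`, `fne`, `rzw`, `rzf`, `rz`, `los2` : names of ground elements, pairs,
  names of elements and of functions, the dictionary, Łoś for second-order formulas over `Ω`.
-/

namespace Pool.Agent.Helper46.FL

universe u

open Pool.Agent.Helper97.Ku

theorem mix : G_MIX.{u} := PkFull.mix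
theorem full : G_FULL.{u} := PkFull.full
theorem setsP : G_SETS.{u} := PkSets.sets
theorem coll : G_COLL.{u} := PkColl.coll full
theorem found : G_FOUND.{u} := PkColl.found
theorem inf : G_INF.{u} := PkInf.thm
theorem choice : G_CHOICE.{u} := PkChoice.thm
theorem ufex : G_UFEX.{u} := PkLOS.ufex
theorem los : G_LOS.{u} := PkLOS.los full

theorem zfc : G_ZFC.{u} := PkZFC.zfc full setsP coll found inf choice los

theorem chk : G_CHK.{u} := PkCHK.chk full
theorem prn : G_PRN.{u} := PkPrn.prn full ufex
theorem wna : G_WNA.{u} := PkWNA.wna
theorem fnf : G_FNF.{u} := PkFNFE.fnf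
theorem fne : G_FNE.{u} := PkFNFE.fne
theorem rzw : G_RZW.{u} := PkRzw.rzw chk
theorem rzf : G_RZF.{u} := PkRZF.rzf ufex chk prn rzw
theorem rz : G_RZ.{u} := PkRZ.rz full chk prn wna rzw rzf
theorem los2 : G_LOS2.{u} := PkLOS2.los2 wna fnf fne

/-- The consistency theorem: a formula of nonzero Boolean value holds in some model of ZFC. -/
theorem con (L : Type u) [CompleteBooleanAlgebra L] (φ : Fml) (w : ℕ → BSet L)
    (h : φ.val w ≠ ⊥) : ∃ (N : Type (u + 1)) (E : N → N → Prop) (v : ℕ → N),
      IsZFC N E ∧ φ.sat E v := by
  obtain ⟨U, hU⟩ := ufex.{u} L (φ.val w) h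
  exact ⟨NM U, NM.E, fun i => NM.mk U (w i), zfc L U, (los L U φ w).2 hU⟩

end Pool.Agent.Helper46.FL
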